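import Mathlib

namespace Pool.Agent.Results.MP_913ab3_an.SeriesIncreasing

open Filter Topology Set Real

noncomputable section

/-- the `k`-th term (with `k + 1` in place of `k`), as a function of `r`, where
`y = arcosh r` -/
def term (r : ℝ) (k : ℕ) : ℝ :=
  (-1) ^ k * (sinh (arcosh r) / sinh (((k : ℝ) + 1) * arcosh r))

/-- the series, for `r > 1` -/
def S₀ (r : ℝ) : ℝ := ∑' k : ℕ, term r k

/-- `S`, with `S(1)` the right limit at `1` -/
def S (r : ℝ) : ℝ := if r = 1 then limUnder (𝓝[>] (1 : ℝ)) S₀ else S₀ r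

/-- the Fermi function -/
def f (u : ℝ) : ℝ := 1 / (exp u + 1)

lemma f_pos (u : ℝ) : 0 < f u := by unfold f; positivity

lemma hasDerivAt_f (u : ℝ) : HasDerivAt f (-(exp u) / (exp u + 1) ^ 2) u := by
  unfold f
  have h1 : HasDerivAt (fun u => exp u + 1) (exp u) u := (Real.hasDerivAt_exp u).add_const 1
  have h2 : exp u + 1 ≠ 0 := by positivity
  have h3 := h1.fun_inv h2
  simpa [one_div] using h3

/-- partial sums -/
def P (N : ℕ) (y : ℝ) : ℝ := 2 * sinh y * ∑ j ∈ Finset.range N, f ((2 * (j : ℝ) + 1) * y)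

/-- the summand of the derivative -/
def τ (j : ℕ) (y : ℝ) : ℝ :=
  (cosh y - 1) * ((2 * (j : ℝ) + 1) * sinh y * cosh ((2 * (j : ℝ) + 1) * y)
    - cosh y * sinh ((2 * (j : ℝ) + 1) * y))
  / ((1 + cosh ((2 * (j : ℝ) + 1) * y)) * (cosh ((2 * (j : ℝ) + 1) * y) + cosh y))

lemma hasDerivAt_P (N : ℕ) (y : ℝ) :
    HasDerivAt (P N) (2 * cosh y * ∑ j ∈ Finset.range N, f ((2 * (j : ℝ) + 1) * y)
      + 2 * sinh y * ∑ j ∈ Finset.range N, (2 * (j : ℝ) + 1) *
        (-(exp ((2 * (j : ℝ) + 1) * y)) / (exp ((2 * (j : ℝ) + 1) * y) + 1) ^ 2)) y := by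
  have h1 : HasDerivAt (fun y => ∑ j ∈ Finset.range N, f ((2 * (j : ℝ) + 1) * y))
      (∑ j ∈ Finset.range N, (2 * (j : ℝ) + 1) *
        (-(exp ((2 * (j : ℝ) + 1) * y)) / (exp ((2 * (j : ℝ) + 1) * y) + 1) ^ 2)) y := by
    apply HasDerivAt.fun_sum
    intro j _
    have h2 : HasDerivAt (fun y => (2 * (j : ℝ) + 1) * y) (2 * (j : ℝ) + 1) y := by
      simpa using (hasDerivAt_id y).const_mul (2 * (j : ℝ) + 1)
    have h3 := (hasDerivAt_f ((2 * (j : ℝ) + 1) * y)).comp y h2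
    have h4 : (2 * (j : ℝ) + 1) *
        (-(exp ((2 * (j : ℝ) + 1) * y)) / (exp ((2 * (j : ℝ) + 1) * y) + 1) ^ 2)
        = -(exp ((2 * (j : ℝ) + 1) * y)) / (exp ((2 * (j : ℝ) + 1) * y) + 1) ^ 2
          * (2 * (j : ℝ) + 1) := mul_comm _ _
    rw [h4]
    exact h3
  have h4 : HasDerivAt (fun y => 2 * sinh y) (2 * cosh y) y :=
    (Real.hasDerivAt_sinh y).const_mul 2
  exact h4.mul h1

lemma alg_identity (n E F : ℝ) (hE : 0 < E) (hF : 0 < F) :
    2 * ((E + 1 / E) / 2) * (1 / (F + 1)) + 2 * ((E - 1 / E) / 2) * ((2 * n + 1) *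
      (-F / (F + 1) ^ 2)) =
    ((E + 1 / E) / 2 - 1) * ((2 * n + 1) * ((E - 1 / E) / 2) * ((F + 1 / F) / 2)
      - ((E + 1 / E) / 2) * ((F - 1 / F) / 2))
      / ((1 + (F + 1 / F) / 2) * ((F + 1 / F) / 2 + (E + 1 / E) / 2))
    + 2 * ((E + 1 / E) / 2) * ((n + 1) * (1 / (F * E + 1)) - n * (1 / (F / E + 1))) := by
  have h1 : F + 1 ≠ 0 := by positivity
  have h2 : F * E + 1 ≠ 0 := by positivity
  have h3 : F + E ≠ 0 := by positivity
  have h4 : F / E + 1 = (F + E) / E := by field_simp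
  have h5 : 1 + (F + 1 / F) / 2 = (F + 1) ^ 2 / (2 * F) := by field_simp; ring
  have h6 : (F + 1 / F) / 2 + (E + 1 / E) / 2 = (F + E) * (F * E + 1) / (2 * (F * E)) := by
    field_simp; ring
  rw [h4, h5, h6]
  field_simp
  ring

lemma deriv_formula (N : ℕ) (y : ℝ) :
    (2 * cosh y * ∑ j ∈ Finset.range N, f ((2 * (j : ℝ) + 1) * y)
      + 2 * sinh y * ∑ j ∈ Finset.range N, (2 * (j : ℝ) + 1) *
        (-(exp ((2 * (j : ℝ) + 1) * y)) / (exp ((2 * (j : ℝ) + 1) * y) + 1) ^ 2))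
    = ∑ j ∈ Finset.range N, τ j y + 2 * cosh y * ((N : ℝ) * f (2 * (N : ℝ) * y)) := by
  induction N with
  | zero => simp
  | succ n ih =>
    rw [Finset.sum_range_succ, Finset.sum_range_succ, Finset.sum_range_succ]
    have key := alg_identity n (exp y) (exp ((2 * (n : ℝ) + 1) * y)) (exp_pos _) (exp_pos _)
    have e1 : (exp y + 1 / exp y) / 2 = cosh y := by
      rw [Real.cosh_eq, Real.exp_neg]; ring
    have e2 : (exp y - 1 / exp y) / 2 = sinh y := by
      rw [Real.sinh_eq, Real.exp_neg]; ring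
    have e3 : (exp ((2 * (n : ℝ) + 1) * y) + 1 / exp ((2 * (n : ℝ) + 1) * y)) / 2
        = cosh ((2 * (n : ℝ) + 1) * y) := by
      rw [Real.cosh_eq, Real.exp_neg]; ring
    have e4 : (exp ((2 * (n : ℝ) + 1) * y) - 1 / exp ((2 * (n : ℝ) + 1) * y)) / 2
        = sinh ((2 * (n : ℝ) + 1) * y) := by
      rw [Real.sinh_eq, Real.exp_neg]; ring
    have e5 : 1 / (exp ((2 * (n : ℝ) + 1) * y) * exp y + 1) = f (2 * ((n + 1 : ℕ) : ℝ) * y) := by
      unfold f
      rw [← Real.exp_add]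
      congr 3
      push_cast; ring
    have e6 : 1 / (exp ((2 * (n : ℝ) + 1) * y) / exp y + 1) = f (2 * (n : ℝ) * y) := by
      unfold f
      rw [← Real.exp_sub]
      congr 3
      ring
    have e7 : 1 / (exp ((2 * (n : ℝ) + 1) * y) + 1) = f ((2 * (n : ℝ) + 1) * y) := rfl
    rw [e1, e2, e3, e4, e5, e6, e7] at key
    have e8 : (cosh y - 1) * ((2 * (n : ℝ) + 1) * sinh y * cosh ((2 * (n : ℝ) + 1) * y)
      - cosh y * sinh ((2 * (n : ℝ) + 1) * y))
      / ((1 + cosh ((2 * (n : ℝ) + 1) * y)) * (cosh ((2 * (n : ℝ) + 1) * y) + cosh y))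
      = τ n y := rfl
    rw [e8] at key
    push_cast at key ⊢
    linear_combination ih + key

lemma g_nonneg {y : ℝ} (hy : 0 ≤ y) (j : ℕ) :
    0 ≤ (2 * (j : ℝ) + 1) * sinh y * cosh ((2 * (j : ℝ) + 1) * y)
    - cosh y * sinh ((2 * (j : ℝ) + 1) * y) := by
  induction j with
  | zero => simp; linarith [mul_comm (sinh y) (cosh y)]
  | succ j ih =>
    set u := (2 * (j : ℝ) + 1) * y with hu
    have e : (2 * ((j + 1 : ℕ) : ℝ) + 1) * y = u + 2 * y := by rw [hu]; push_cast; ring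
    rw [e, Real.cosh_add, Real.sinh_add, Real.cosh_two_mul, Real.sinh_two_mul]
    have hc : cosh y ^ 2 = sinh y ^ 2 + 1 := by rw [Real.cosh_sq]
    have hs : 0 ≤ sinh y := Real.sinh_nonneg_iff.2 hy
    have hS : 0 ≤ sinh u := Real.sinh_nonneg_iff.2 (by positivity)
    have hC : 0 < cosh u := Real.cosh_pos u
    have hcp : 0 < cosh y := Real.cosh_pos y
    have id1 : (2 * ((j + 1 : ℕ) : ℝ) + 1) * sinh y *
        (cosh u * (cosh y ^ 2 + sinh y ^ 2) + sinh u * (2 * sinh y * cosh y))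
        - cosh y * (sinh u * (cosh y ^ 2 + sinh y ^ 2) + cosh u * (2 * sinh y * cosh y))
        = ((2 * (j : ℝ) + 1) * sinh y * cosh u - cosh y * sinh u)
          + (2 * (j : ℝ) + 2) * 2 * sinh y ^ 2 * (sinh y * cosh u + cosh y * sinh u) := by
      push_cast
      rw [show cosh y * (sinh u * (cosh y ^ 2 + sinh y ^ 2) + cosh u * (2 * sinh y * cosh y))
        = cosh y * sinh u * (cosh y ^ 2 + sinh y ^ 2) + 2 * sinh y * cosh u * cosh y ^ 2 by ring,
        hc]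
      ring
    rw [id1]
    positivity

lemma g_one_pos {y : ℝ} (hy : 0 < y) :
    0 < (2 * ((1 : ℕ) : ℝ) + 1) * sinh y * cosh ((2 * ((1 : ℕ) : ℝ) + 1) * y)
    - cosh y * sinh ((2 * ((1 : ℕ) : ℝ) + 1) * y) := by
  have e : (2 * ((1 : ℕ) : ℝ) + 1) * y = y + 2 * y := by push_cast; ring
  rw [e, Real.cosh_add, Real.sinh_add, Real.cosh_two_mul, Real.sinh_two_mul]
  have hc : cosh y ^ 2 = sinh y ^ 2 + 1 := by rw [Real.cosh_sq]
  have hs : 0 < sinh y := Real.sinh_pos_iff.2 hy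
  have hcp : 0 < cosh y := Real.cosh_pos y
  have id1 : (2 * ((1 : ℕ) : ℝ) + 1) * sinh y *
        (cosh y * (cosh y ^ 2 + sinh y ^ 2) + sinh y * (2 * sinh y * cosh y))
        - cosh y * (sinh y * (cosh y ^ 2 + sinh y ^ 2) + cosh y * (2 * sinh y * cosh y))
        = 8 * sinh y ^ 3 * cosh y := by
    push_cast
    rw [show cosh y * (sinh y * (cosh y ^ 2 + sinh y ^ 2) + cosh y * (2 * sinh y * cosh y))
      = cosh y * sinh y * (cosh y ^ 2 + sinh y ^ 2) + 2 * sinh y * cosh y * cosh y ^ 2 by ring,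
      hc]
    ring
  rw [id1]
  positivity

lemma τ_nonneg {y : ℝ} (hy : 0 ≤ y) (j : ℕ) : 0 ≤ τ j y := by
  unfold τ
  have h1 := g_nonneg hy j
  have h2 : 0 ≤ cosh y - 1 := by linarith [Real.one_le_cosh y]
  have h3 : 0 < cosh ((2 * (j : ℝ) + 1) * y) := Real.cosh_pos _
  have h4 : 0 < cosh y := Real.cosh_pos _
  positivity

lemma τ_one_pos {y : ℝ} (hy : 0 < y) : 0 < τ 1 y := by
  unfold τ
  have h1 := g_one_pos hy
  have h2 : 0 < cosh y - 1 := by linarith [Real.one_lt_cosh.2 hy.ne']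
  have h3 : 0 < cosh ((2 * ((1 : ℕ) : ℝ) + 1) * y) := Real.cosh_pos _
  have h4 : 0 < cosh y := Real.cosh_pos _
  positivity

lemma continuous_τ_one : Continuous (τ 1) := by
  unfold τ
  apply Continuous.div
  · fun_prop
  · fun_prop
  · intro x
    have h3 : 0 < cosh ((2 * ((1 : ℕ) : ℝ) + 1) * x) := Real.cosh_pos _
    have h4 : 0 < cosh x := Real.cosh_pos _
    positivity

lemma P_incr {a b : ℝ} (ha : 0 < a) (hab : a < b) : ∃ ε > 0, ∀ N : ℕ, 2 ≤ N →
    ε * (b - a) ≤ P N b - P N a := by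
  obtain ⟨y₀, hy₀, hmin⟩ := (isCompact_Icc (a := a) (b := b)).exists_isMinOn
    ⟨a, by constructor <;> linarith⟩ continuous_τ_one.continuousOn
  refine ⟨τ 1 y₀, τ_one_pos (by linarith [hy₀.1]), ?_⟩
  intro N hN
  apply Convex.mul_sub_le_image_sub_of_le_deriv (convex_Icc a b)
    (fun y _ => (hasDerivAt_P N y).continuousAt.continuousWithinAt)
    (fun y _ => (hasDerivAt_P N y).differentiableAt.differentiableWithinAt)
  · intro y hy
    rw [interior_Icc] at hy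
    rw [(hasDerivAt_P N y).deriv, deriv_formula]
    have hy0 : 0 ≤ y := by linarith [hy.1]
    have h1 : τ 1 y₀ ≤ τ 1 y := hmin ⟨hy.1.le, hy.2.le⟩
    have h2 : τ 1 y ≤ ∑ j ∈ Finset.range N, τ j y :=
      Finset.single_le_sum (f := fun j => τ j y) (fun j _ => τ_nonneg hy0 j)
        (Finset.mem_range.2 (by omega))
    have h3 : 0 ≤ 2 * cosh y * ((N : ℝ) * f (2 * (N : ℝ) * y)) := by
      have := f_pos (2 * (N : ℝ) * y)
      have := Real.cosh_pos y
      positivity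
    linarith
  · constructor <;> linarith
  · constructor <;> linarith
  · exact hab.le

/-- the double series -/
lemma double_series {y : ℝ} (hy : 0 < y) :
    Summable (fun k : ℕ => (-1 : ℝ) ^ k * (sinh y / sinh (((k : ℝ) + 1) * y))) ∧
    Summable (fun j : ℕ => f ((2 * (j : ℝ) + 1) * y)) ∧
    ∑' k : ℕ, (-1 : ℝ) ^ k * (sinh y / sinh (((k : ℝ) + 1) * y))
      = 2 * sinh y * ∑' j : ℕ, f ((2 * (j : ℝ) + 1) * y) := by
  set x : ℝ := exp (-y) with hx
  have hx0 : 0 < x := exp_pos _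
  have hx1 : x < 1 := by
    have := Real.exp_lt_exp.2 (show -y < 0 by linarith)
    rwa [Real.exp_zero] at this
  have hxp : ∀ n : ℕ, x ^ n = exp (-((n : ℝ) * y)) := by
    intro n
    rw [hx, ← Real.exp_nat_mul]
    congr 1; ring
  let a : ℕ × ℕ → ℝ := fun q => (-1) ^ q.1 * x ^ ((2 * q.2 + 1) * (q.1 + 1))
  have hs : Summable a := by
    have hg : Summable (fun n : ℕ => x ^ n) := summable_geometric_of_lt_one hx0.le hx1
    have hgg : Summable (fun q : ℕ × ℕ => x ^ q.1 * x ^ q.2) :=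
      hg.mul_of_nonneg hg (fun n => by positivity) (fun n => by positivity)
    apply Summable.of_norm_bounded hgg
    intro q
    show ‖(-1 : ℝ) ^ q.1 * x ^ ((2 * q.2 + 1) * (q.1 + 1))‖ ≤ _
    rw [norm_mul, norm_pow, norm_neg, norm_one, one_pow, one_mul,
      Real.norm_of_nonneg (by positivity), ← pow_add]
    apply pow_le_pow_of_le_one hx0.le hx1.le
    nlinarith [Nat.zero_le (q.1 * q.2)]
  have inner1 : ∀ k : ℕ, HasSum (fun j : ℕ => a (k, j))
      ((-1) ^ k * (1 / (2 * sinh (((k : ℝ) + 1) * y)))) := by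
    intro k
    have h1 : HasSum (fun j : ℕ => (x ^ (2 * (k + 1))) ^ j) (1 - x ^ (2 * (k + 1)))⁻¹ :=
      hasSum_geometric_of_lt_one (by positivity) (pow_lt_one₀ hx0.le hx1 (by omega))
    have h2 := (h1.mul_left ((-1) ^ k * x ^ (k + 1)))
    have h3 : (fun j : ℕ => (-1) ^ k * x ^ (k + 1) * (x ^ (2 * (k + 1))) ^ j)
        = fun j : ℕ => a (k, j) := by
      funext j
      show _ = (-1 : ℝ) ^ k * x ^ ((2 * j + 1) * (k + 1))
      rw [← pow_mul, mul_assoc, ← pow_add]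
      congr 2
      ring
    rw [h3] at h2
    suffices hv : (-1 : ℝ) ^ k * (1 / (2 * sinh (((k : ℝ) + 1) * y)))
        = (-1) ^ k * x ^ (k + 1) * (1 - x ^ (2 * (k + 1)))⁻¹ by
      rw [hv]; exact h2
    rw [mul_assoc]
    congr 1
    rw [Real.sinh_eq]
    have e1 : exp (-(((k : ℝ) + 1) * y)) = x ^ (k + 1) := by rw [hxp]; push_cast; rfl
    have e2 : exp (((k : ℝ) + 1) * y) = (x ^ (k + 1))⁻¹ := by
      rw [← e1, Real.exp_neg, inv_inv]
    rw [e1, e2]
    have h5 : 0 < x ^ (k + 1) := by positivity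
    have h6 : x ^ (k + 1) < 1 := pow_lt_one₀ hx0.le hx1 (by omega)
    have h7 : x ^ (2 * (k + 1)) = (x ^ (k + 1)) ^ 2 := by rw [← pow_mul]; congr 1; ring
    rw [h7]
    set z := x ^ (k + 1)
    have h8 : 1 - z ^ 2 ≠ 0 := by nlinarith
    have h9 : z⁻¹ - z = (1 - z ^ 2) / z := by field_simp
    rw [h9]
    field_simp
  have inner2 : ∀ j : ℕ, HasSum (fun k : ℕ => a (k, j)) (f ((2 * (j : ℝ) + 1) * y)) := by
    intro j
    have hlt : |(-(x ^ (2 * j + 1)))| < 1 := by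
      rw [abs_neg, abs_of_pos (by positivity)]
      exact pow_lt_one₀ hx0.le hx1 (by omega)
    have h1 : HasSum (fun k : ℕ => (-(x ^ (2 * j + 1))) ^ k) (1 - (-(x ^ (2 * j + 1))))⁻¹ :=
      hasSum_geometric_of_abs_lt_one hlt
    have h2 := (h1.mul_left (x ^ (2 * j + 1)))
    have h3 : (fun k : ℕ => x ^ (2 * j + 1) * (-(x ^ (2 * j + 1))) ^ k)
        = fun k : ℕ => a (k, j) := by
      funext k
      show _ = (-1 : ℝ) ^ k * x ^ ((2 * j + 1) * (k + 1))
      rw [neg_pow, ← pow_mul]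
      rw [mul_left_comm, ← pow_add]
      congr 2
      ring
    rw [h3] at h2
    suffices hv : f ((2 * (j : ℝ) + 1) * y)
        = x ^ (2 * j + 1) * (1 - (-(x ^ (2 * j + 1))))⁻¹ by
      rw [hv]; exact h2
    unfold f
    have e1 : exp ((2 * (j : ℝ) + 1) * y) = (x ^ (2 * j + 1))⁻¹ := by
      rw [hxp, ← Real.exp_neg, neg_neg]; push_cast; rfl
    rw [e1]
    have h5 : 0 < x ^ (2 * j + 1) := by positivity
    set z := x ^ (2 * j + 1)
    rw [sub_neg_eq_add]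
    field_simp
  have hsum1 : HasSum (fun k : ℕ => (-1 : ℝ) ^ k * (1 / (2 * sinh (((k : ℝ) + 1) * y))))
      (∑' q, a q) := hs.hasSum.prod_fiberwise inner1
  have hsum2 : HasSum (fun j : ℕ => f ((2 * (j : ℝ) + 1) * y)) (∑' q, a q) := by
    have hs' : HasSum (a ∘ (Equiv.prodComm ℕ ℕ)) (∑' q, a q) :=
      (Equiv.hasSum_iff (Equiv.prodComm ℕ ℕ)).2 hs.hasSum
    exact hs'.prod_fiberwise inner2
  have hsum3 : HasSum (fun k : ℕ => (-1 : ℝ) ^ k * (sinh y / sinh (((k : ℝ) + 1) * y)))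
      (2 * sinh y * ∑' q, a q) := by
    have h2 := hsum1.mul_left (2 * sinh y)
    have h3 : (fun k : ℕ => 2 * sinh y * ((-1 : ℝ) ^ k * (1 / (2 * sinh (((k : ℝ) + 1) * y)))))
        = fun k : ℕ => (-1 : ℝ) ^ k * (sinh y / sinh (((k : ℝ) + 1) * y)) := by
      funext k
      have h1 : sinh (((k : ℝ) + 1) * y) ≠ 0 := (Real.sinh_pos_iff.2 (by positivity)).ne'
      field_simp
    rw [h3] at h2
    exact h2
  refine ⟨hsum3.summable, hsum2.summable, ?_⟩
  rw [hsum3.tsum_eq, hsum2.tsum_eq]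

/-- **Full answer to Q1 (positive).** -/
theorem result :
    (∀ r : ℝ, 1 < r → Summable (fun k : ℕ =>
      (-1 : ℝ) ^ k * (sinh (arcosh r) / sinh (((k : ℝ) + 1) * arcosh r)))) ∧
    Tendsto S₀ (𝓝[>] (1 : ℝ)) (𝓝 (S 1)) ∧
    StrictMonoOn S (Ici 1) := by
  have hT : ∀ r : ℝ, 1 < r → Tendsto (fun N => P N (arcosh r)) atTop (𝓝 (S₀ r)) := by
    intro r hr
    have hy : 0 < arcosh r := arcosh_pos hr
    obtain ⟨_, h2, h3⟩ := double_series hy
    have h4 : S₀ r = 2 * sinh (arcosh r) * ∑' j : ℕ, f ((2 * (j : ℝ) + 1) * arcosh r) := h3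
    rw [h4]
    exact h2.hasSum.tendsto_sum_nat.const_mul _
  have hmono : StrictMonoOn S₀ (Ioi 1) := by
    intro r hr s hs hrs
    have hr' : (1 : ℝ) < r := hr
    have hs' : (1 : ℝ) < s := hs
    have h1 : arcosh r < arcosh s := (arcosh_lt_arcosh (by linarith) (by linarith)).2 hrs
    obtain ⟨ε, hε, hP⟩ := P_incr (arcosh_pos hr') h1
    have h2 : Tendsto (fun N => P N (arcosh s) - P N (arcosh r)) atTop (𝓝 (S₀ s - S₀ r)) :=
      (hT s hs').sub (hT r hr')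
    have h3 : ε * (arcosh s - arcosh r) ≤ S₀ s - S₀ r := by
      apply ge_of_tendsto h2
      filter_upwards [eventually_ge_atTop 2] with N hN
      exact hP N hN
    have h4 : 0 < ε * (arcosh s - arcosh r) := mul_pos hε (by linarith)
    linarith
  have hnonneg : ∀ r : ℝ, 1 < r → 0 ≤ S₀ r := by
    intro r hr
    apply ge_of_tendsto' (hT r hr)
    intro N
    unfold P
    have h1 : 0 ≤ sinh (arcosh r) := Real.sinh_nonneg_iff.2 (arcosh_pos hr).le
    have h2 : 0 ≤ ∑ j ∈ Finset.range N, f ((2 * (j : ℝ) + 1) * arcosh r) :=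
      Finset.sum_nonneg (fun j _ => (f_pos _).le)
    positivity
  have hbdd : BddBelow (S₀ '' Ioi 1) := ⟨0, by
    rintro _ ⟨r, hr, rfl⟩
    exact hnonneg r hr⟩
  have hlim : Tendsto S₀ (𝓝[>] (1 : ℝ)) (𝓝 (sInf (S₀ '' Ioi 1))) :=
    hmono.monotoneOn.tendsto_nhdsGT hbdd
  have hS1 : S 1 = sInf (S₀ '' Ioi 1) := by
    unfold S
    rw [if_pos rfl]
    exact hlim.limUnder_eq
  refine ⟨fun r hr => (double_series (arcosh_pos hr)).1, by rw [hS1]; exact hlim, ?_⟩
  intro r hr s hs hrs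
  have hr' : (1 : ℝ) ≤ r := hr
  have hs' : (1 : ℝ) < s := lt_of_le_of_lt hr' hrs
  have hSs : S s = S₀ s := by unfold S; rw [if_neg hs'.ne']
  rcases eq_or_lt_of_le hr' with h | h
  · rw [← h, hS1, hSs]
    have h1 : (1 : ℝ) < (1 + s) / 2 := by linarith
    have h2 : sInf (S₀ '' Ioi 1) ≤ S₀ ((1 + s) / 2) := csInf_le hbdd ⟨_, h1, rfl⟩
    have h3 : S₀ ((1 + s) / 2) < S₀ s := hmono h1 hs' (by linarith)
    linarith
  · have hSr : S r = S₀ r := by unfold S; rw [if_neg h.ne']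
    rw [hSr, hSs]
    exact hmono h hs' hrs

end

end Pool.Agent.Results.MP_913ab3_an.SeriesIncreasing
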